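import Pool.Agent.P.MP_1a5b27_al.D

set_option autoImplicit false

namespace Pool.Agent.Results.MP_1a5b27_al.BlockFixed

open Pool.Agent.P.MP_ebbeae_al

/-- For odd `p`, a block `b` with maximal Brauer pair `(D, f)` and `exp (D / D') ≤ p ^ e`: if at
least `t |D| / p` elements `x` of `D` are good (`t` the inertial index), then every irreducible
character of height zero in `b` is fixed by `σ_e`. -/
theorem result (p : ℕ) (hp : p.Prime) (hp2 : p ≠ 2) (e : ℕ) (he : 1 ≤ e)
    (G : Type) [Group G] [Fintype G]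
    (O : ValuationSubring ℂ) (hO : (p : O) ∈ IsLocalRing.maximalIdeal O)
    (b : MonoidAlgebra (IsLocalRing.ResidueField O) G) (hb : IsBlock ⊤ b)
    (D : Subgroup G) (hD : IsDefectGroup p b D)
    (f : MonoidAlgebra (IsLocalRing.ResidueField O) G)
    (hf : IsBlock (Subgroup.centralizer (D : Set G)) f) (hbf : br D b * f = f)
    (N : Subgroup G) (hN : ∀ n : G, n ∈ N ↔ cs n D = D ∧ cj n f = f)
    (hgood : (D ⊔ Subgroup.centralizer (D : Set G)).relIndex N * Nat.card D ≤
      p * Set.ncard {x : G | x ∈ D ∧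
        (∀ (Q : Subgroup G) (f' : MonoidAlgebra (IsLocalRing.ResidueField O) G) (g : G),
          IsMulCommutative Q → (∃ u ∈ Q, x⁻¹ * u ∈ ⁅D, D⁆) → PairLe (Q, f') (D, f) →
          PairLe (cs g Q, cj g f') (D, f) →
          ∃ n : G, cs n D = D ∧ cj n f = f ∧ ∀ y ∈ Q, n * y * n⁻¹ = g * y * g⁻¹) ∧
        ∀ n : G, cs n D = D → cj n f = f → x⁻¹ * (n * x * n⁻¹) ∈ ⁅D, D⁆ →
          n ∈ D ⊔ Subgroup.centralizer (D : Set G)})
    (hexp : Monoid.exponent (Abelianization D) ≤ p ^ e)
    (V : FDRep ℂ G) (hV : CategoryTheory.Simple V) (hVb : InBlock O b V.character)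
    (hV0 : padicValNat p (Module.finrank ℂ V) + padicValNat p (Nat.card D) =
      padicValNat p (Nat.card G))
    (k : ℕ) (hk1 : k ≡ 1 [MOD Nat.card G / p ^ (Nat.card G).factorization p])
    (hk2 : k ≡ 1 + p ^ e [MOD p ^ (Nat.card G).factorization p]) (g : G) :
    V.character (g ^ k) = V.character g :=
  Pool.Agent.P.MP_1a5b27_al.main hp hp2 hO hb hD hf hbf hN hgood he hexp V hV hVb hV0 hk1 hk2 g

end Pool.Agent.Results.MP_1a5b27_al.BlockFixed
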