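import Pool.Agent.P.MP_1a5b27_al.Cy.Gp

set_option autoImplicit false

namespace Pool.Agent.Results.MP_1a5b27_al.CyclicDerived

open Pool.Agent.P.MP_ebbeae_al

/-- Let `b` be a block with defect group `D` and `exp (D / D') ≤ p ^ e`. If `p` is odd and `D'` is
cyclic, or more generally if `x ↦ x ^ p ^ e` is an endomorphism of `D` with cyclic image (any `p`),
then every irreducible character of height zero in `b` is fixed by `σ_e`. -/
theorem result (p : ℕ) (hp : p.Prime) (e : ℕ) (he : 1 ≤ e)
    (G : Type) [Group G] [Fintype G]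
    (O : ValuationSubring ℂ) (hO : (p : O) ∈ IsLocalRing.maximalIdeal O)
    (b : MonoidAlgebra (IsLocalRing.ResidueField O) G) (hb : IsBlock ⊤ b)
    (D : Subgroup G) (hD : IsDefectGroup p b D)
    (hcyc : (p ≠ 2 ∧ IsCyclic (commutator D)) ∨
      ∃ f : D →* D, (∀ x, f x = x ^ p ^ e) ∧ IsCyclic f.range)
    (hexp : Monoid.exponent (Abelianization D) ≤ p ^ e)
    (V : FDRep ℂ G) (hV : CategoryTheory.Simple V) (hVb : InBlock O b V.character)
    (hV0 : padicValNat p (Module.finrank ℂ V) + padicValNat p (Nat.card D) =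
      padicValNat p (Nat.card G))
    (k : ℕ) (hk1 : k ≡ 1 [MOD Nat.card G / p ^ (Nat.card G).factorization p])
    (hk2 : k ≡ 1 + p ^ e [MOD p ^ (Nat.card G).factorization p]) (g : G) :
    V.character (g ^ k) = V.character g :=
  Pool.Agent.P.MP_1a5b27_al.Cy.main hp hO hb hD he hcyc hexp V hV hVb hV0 hk1 hk2 g

end Pool.Agent.Results.MP_1a5b27_al.CyclicDerived
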